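import Pool.Agent.H68.L.R_seed8.Y676.IS.Alg2

/-!
# Project IS: the 2-isogeny is additive over algebraically closed fields
-/

set_option autoImplicit false
set_option linter.unusedSectionVars false

namespace Pool.Agent.Y676.IS

open WeierstrassCurve

variable {F : Type} [Field F] [CharZero F] {a b a' b' u : F} [DecidableEq F]

/-- the points `0`, `T` -/
def Sm (hb : b ≠ 0) (hd : a ^ 2 - 4 * b ≠ 0) (P : (Cu a b).Point) : Prop := P = 0 ∨ P = TT hb hd

lemma neg_T (hb : b ≠ 0) (hd : a ^ 2 - 4 * b ≠ 0) : -(TT hb hd) = TT hb hd :=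
  neg_eq_of_add_eq_zero_left (T_add_T hb hd)

lemma isT_of_x0 (hb : b ≠ 0) (hd : a ^ 2 - 4 * b ≠ 0) {x y : F} (h : (Cu a b).Nonsingular x y)
    (hx : x = 0) : (.some x y h : (Cu a b).Point) = TT hb hd := by
  have e := ns_eq h
  subst hx
  have hy : y = 0 := by
    have : y ^ 2 = 0 := by rw [e]; ring
    exact pow_eq_zero_iff two_ne_zero |>.1 this
  exact some_congr _ _ rfl hy

lemma ns_neg {x y : F} (hb : b ≠ 0) (hd : a ^ 2 - 4 * b ≠ 0) (h : (Cu a b).Nonsingular x y) :
    (Cu a b).Nonsingular x (-y) := cu_ns hb hd (by rw [neg_sq]; exact ns_eq h)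

lemma ns_T {x y : F} (hb : b ≠ 0) (hd : a ^ 2 - 4 * b ≠ 0) (h : (Cu a b).Nonsingular x y)
    (hx : x ≠ 0) : (Cu a b).Nonsingular (b / x) (-(b * y / x ^ 2)) := by
  apply cu_ns hb hd
  have e := ns_eq h
  have e1 : (-(b * y / x ^ 2)) ^ 2 = b ^ 2 * y ^ 2 / x ^ 4 := by
    field_simp
  rw [e1, e]
  field_simp
  ring

lemma isoF_neg (h : Dat a b a' b' u) (P : (Cu a b).Point) : isoF h (-P) = -isoF h P := by
  rcases P with _ | ⟨x, y, hxy⟩
  · change isoF h (-0) = -isoF h 0
    rw [neg_zero, isoF_zero, neg_zero]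
  · rw [neg_some hxy (ns_neg h.hb h.hd hxy)]
    by_cases hx : x = 0
    · rw [isoF_x0 h _ hx, isoF_x0 h _ hx, neg_zero]
    · rw [isoF_some h _ hx, isoF_some h _ hx, neg_some _ (ns_neg h.hb' h.hd' (cu_ns h.hb' h.hd'
        (img h hx (ns_eq hxy))))]
      apply some_congr
      · rw [neg_sq]
      · ring

lemma isoF_T (h : Dat a b a' b' u) : isoF h (TT h.hb h.hd) = 0 := isoF_x0 h _ rfl

lemma isoF_addT (h : Dat a b a' b' u) (P : (Cu a b).Point) :
    isoF h (P + TT h.hb h.hd) = isoF h P := by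
  rcases P with _ | ⟨x, y, hxy⟩
  · change isoF h (0 + _) = isoF h 0
    rw [zero_add, isoF_T, isoF_zero]
  · by_cases hx : x = 0
    · rw [isT_of_x0 h.hb h.hd hxy hx, T_add_T, isoF_zero, isoF_T]
    · have hu := h.hu
      have hb := h.hb
      have e0 := ns_eq hxy
      rw [add_T h.hb h.hd hxy hx (ns_T h.hb h.hd hxy hx), isoF_some h _ (div_ne_zero h.hb hx),
        isoF_some h _ hx]
      apply some_congr
      · field_simp
      · field_simp
        ring

/-- the good pairs -/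
lemma good_pair (h : Dat a b a' b' u) (P Q : (Cu a b).Point) (hP : ¬ Sm h.hb h.hd P)
    (hQ : ¬ Sm h.hb h.hd Q) (h1 : ¬ Sm h.hb h.hd (P + Q)) (h2 : ¬ Sm h.hb h.hd (P - Q)) :
    isoF h (P + Q) = isoF h P + isoF h Q := by
  rcases P with _ | ⟨x1, y1, hP1⟩
  · exact absurd (Or.inl rfl) hP
  rcases Q with _ | ⟨x2, y2, hP2⟩
  · exact absurd (Or.inl rfl) hQ
  have hx1 : x1 ≠ 0 := fun h0 => hP (Or.inr (isT_of_x0 h.hb h.hd hP1 h0))
  have hx2 : x2 ≠ 0 := fun h0 => hQ (Or.inr (isT_of_x0 h.hb h.hd hP2 h0))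
  have e1 := ns_eq hP1
  have e2 := ns_eq hP2
  have h12 : x1 ≠ x2 := by
    intro h0
    subst h0
    have : y1 ^ 2 = y2 ^ 2 := by rw [e1, e2]
    rcases sq_eq_sq_iff_eq_or_eq_neg.1 this with h3 | h3
    · apply h2
      left
      rw [sub_eq_zero]
      exact some_congr _ _ rfl h3
    · apply h1
      left
      have h4 : (.some x1 y1 hP1 : (Cu a b).Point) = -(.some x1 y2 hP2) := by
        rw [neg_some hP2 (ns_neg h.hb h.hd hP2)]
        exact some_congr _ _ rfl h3
      rw [h4, neg_add_cancel]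
  have h12' : x1 * x2 ≠ b := by
    intro h0
    have hx2' : x2 = b / x1 := by
      rw [eq_div_iff hx1, mul_comm]
      exact h0
    have hT := add_T h.hb h.hd hP1 hx1 (ns_T h.hb h.hd hP1 hx1)
    have e3 := ns_eq (ns_T h.hb h.hd hP1 hx1)
    rw [← hx2', ← e2] at e3
    rcases sq_eq_sq_iff_eq_or_eq_neg.1 e3.symm with h3 | h3
    · -- `Q = P + T`
      apply h2
      right
      have h4 : (.some x2 y2 hP2 : (Cu a b).Point) = .some x1 y1 hP1 + TT h.hb h.hd := by
        rw [hT]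
        exact some_congr _ _ hx2' h3
      rw [h4, sub_add_cancel_left, neg_T]
    · apply h1
      right
      have h4 : (.some x2 y2 hP2 : (Cu a b).Point) = -(.some x1 y1 hP1 + TT h.hb h.hd) := by
        rw [hT, neg_some _ (ns_neg h.hb h.hd (ns_T h.hb h.hd hP1 hx1))]
        exact some_congr _ _ hx2' h3
      rw [h4, neg_add, neg_T, add_neg_cancel_left]
  have hn : y1 * x2 ≠ y2 * x1 := by
    intro h0
    apply h12'
    have hs : x1 - x2 ≠ 0 := sub_ne_zero.2 h12
    have h5 : (y1 * x2) ^ 2 = (y2 * x1) ^ 2 := by rw [h0]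
    have h6 : x1 * x2 * ((x1 - x2) * (x1 * x2 - b)) = 0 := by
      rw [mul_pow, mul_pow, e1, e2] at h5
      linear_combination h5
    have h7 : x1 * x2 - b = 0 := by
      rcases mul_eq_zero.1 h6 with h8 | h8
      · exact absurd h8 (mul_ne_zero hx1 hx2)
      · exact (mul_eq_zero.1 h8).resolve_left hs
    exact sub_eq_zero.1 h7
  exact gen h hP1 hP2 hx1 hx2 h12 h12' hn

/-- there are infinitely many points -/
lemma inf_pts [IsAlgClosed F] (hb : b ≠ 0) (hd : a ^ 2 - 4 * b ≠ 0) :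
    Infinite (Cu a b).Point := by
  have : Infinite F := IsAlgClosed.instInfinite
  have hex : ∀ x : F, ∃ y : F, y ^ 2 = x ^ 3 + a * x ^ 2 + b * x := fun x =>
    IsAlgClosed.exists_pow_nat_eq _ two_pos
  choose y hy using hex
  refine Infinite.of_injective (fun x : F => (.some x (y x) (cu_ns hb hd (hy x)) :
    (Cu a b).Point)) ?_
  intro x x' hxx
  exact ((Affine.Point.some.injEq _ _ _ _ _ _).mp hxx).1

/-- pairs whose sum is not `0`, `T` -/
lemma mid_pair [IsAlgClosed F] (h : Dat a b a' b' u) (P Q : (Cu a b).Point)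
    (hP : ¬ Sm h.hb h.hd P) (h1 : ¬ Sm h.hb h.hd (P + Q)) (hQ : ¬ Sm h.hb h.hd Q) :
    isoF h (P + Q) = isoF h P + isoF h Q := by
  have hinf := inf_pts (a := a) (b := b) h.hb h.hd
  set T := TT h.hb h.hd with hT
  let S : Finset (Cu a b).Point := by
    classical
    exact {0, T, -Q, T - Q, Q, Q - T, -(P + Q), T - (P + Q), P - Q, P - Q - T, P + Q, P + Q - T}
  obtain ⟨R, hR⟩ := Infinite.exists_notMem_finset S
  simp only [S, Finset.mem_insert, Finset.mem_singleton, not_or] at hR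
  obtain ⟨r1, r2, r3, r4, r5, r6, r7, r8, r9, r10, r11, r12⟩ := hR
  have g1 : ¬ Sm h.hb h.hd R := by
    rintro (g | g)
    · exact r1 g
    · exact r2 g
  have g2 : ¬ Sm h.hb h.hd (Q + R) := by
    rintro (g | g)
    · exact r3 (by rw [eq_neg_iff_add_eq_zero, add_comm]; exact g)
    · exact r4 (by rw [eq_sub_iff_add_eq, add_comm]; exact g)
  have g3 : ¬ Sm h.hb h.hd (Q - R) := by
    rintro (g | g)
    · exact r5 (sub_eq_zero.1 g).symm
    · exact r6 (by rw [hT, ← g]; abel)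
  have g4 : ¬ Sm h.hb h.hd (P + (Q + R)) := by
    rintro (g | g)
    · exact r7 (by rw [eq_neg_iff_add_eq_zero, ← g]; abel)
    · exact r8 (by rw [hT, ← g]; abel)
  have g5 : ¬ Sm h.hb h.hd (P - (Q + R)) := by
    rintro (g | g)
    · exact r9 (by rw [sub_eq_zero.1 g]; abel)
    · exact r10 (by rw [hT, ← g]; abel)
  have g6 : ¬ Sm h.hb h.hd (P + Q - R) := by
    rintro (g | g)
    · exact r11 (sub_eq_zero.1 g).symm
    · exact r12 (by rw [hT, ← g]; abel)
  have k1 := good_pair h Q R hQ g1 g2 g3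
  have k2 := good_pair h P (Q + R) hP g2 g4 g5
  have k3 := good_pair h (P + Q) R h1 g1 (by rw [add_assoc]; exact g4) g6
  rw [← add_assoc, k3, k1, ← add_assoc] at k2
  exact add_right_cancel k2

/-- **additivity over algebraically closed fields** -/
theorem add_all [IsAlgClosed F] (h : Dat a b a' b' u) (P Q : (Cu a b).Point) :
    isoF h (P + Q) = isoF h P + isoF h Q := by
  by_cases hP : Sm h.hb h.hd P
  · rcases hP with hP | hP
    · rw [hP, zero_add, isoF_zero, zero_add]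
    · rw [hP, add_comm, isoF_addT, isoF_T, zero_add]
  by_cases hQ : Sm h.hb h.hd Q
  · rcases hQ with hQ | hQ
    · rw [hQ, add_zero, isoF_zero, add_zero]
    · rw [hQ, isoF_addT, isoF_T, add_zero]
  by_cases h1 : Sm h.hb h.hd (P + Q)
  · rcases h1 with h1 | h1
    · rw [h1, isoF_zero, eq_neg_of_add_eq_zero_left h1, isoF_neg, neg_add_cancel]
    · rw [h1, isoF_T]
      have h2 : P = -Q + TT h.hb h.hd := by
        rw [← h1]
        abel
      rw [h2, isoF_addT, isoF_neg, neg_add_cancel]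
  · exact mid_pair h P Q hP h1 hQ

end Pool.Agent.Y676.IS
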